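import Mathlib

/-!
# MP_f91407_an: entrywise maps preserving real-rooted polynomials with nonnegative coefficients
-/

namespace Pool.Agent.Lib.MP_f91407_an

open NNReal

/-- `InP d a` says that the polynomial `∑ a_j z^j` of degree at most `d` with nonnegative
coefficients `a_0, …, a_d` has only real complex zeros. -/
def InP (d : ℕ) (a : Fin (d + 1) → ℝ≥0) : Prop :=
  ∀ z : ℂ, ∑ j : Fin (d + 1), (((a j : ℝ≥0) : ℝ) : ℂ) * z ^ (j : ℕ) = 0 → z.im = 0

/-- `Preserves F` says that `F 0 = 0` and that `F`, applied to the coefficients, maps every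
polynomial in the class `InP d` into the same class, for every `d`. -/
def Preserves (F : ℝ≥0 → ℝ≥0) : Prop :=
  F 0 = 0 ∧ ∀ (d : ℕ) (a : Fin (d + 1) → ℝ≥0), InP d a → InP d fun j => F (a j)

end Pool.Agent.Lib.MP_f91407_an
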