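import Pool.Agent.Lib.MP_f91407_an.Mg.G026

/-!
# Concavity of `t P'(t) / P(t)` and absence of jumps
-/

namespace Pool.Agent.Lib.MP_f91407_an

open Polynomial NNReal

theorem prod_eval_pos (s : Multiset ℝ) (hs : ∀ ω ∈ s, 0 ≤ ω) {t : ℝ} (ht : 0 < t) :
    0 < ((s.map fun ω => X + C ω).prod : ℝ[X]).eval t := by
  induction s using Multiset.induction_on with
  | empty => simp
  | cons a s ih =>
    rw [Multiset.map_cons, Multiset.prod_cons, eval_mul]
    have h1 := ih fun ω hω => hs ω (Multiset.mem_cons_of_mem hω)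
    have h2 := hs a (Multiset.mem_cons_self a s)
    have : 0 < eval t (X + C a) := by simp; linarith
    exact mul_pos this h1

theorem prod_eval_derivative (s : Multiset ℝ) (hs : ∀ ω ∈ s, 0 ≤ ω) {t : ℝ} (ht : 0 < t) :
    (derivative ((s.map fun ω => X + C ω).prod : ℝ[X])).eval t =
      ((s.map fun ω => X + C ω).prod : ℝ[X]).eval t * (s.map fun ω => 1 / (t + ω)).sum := by
  induction s using Multiset.induction_on with
  | empty => simp
  | cons a s ih =>
    rw [Multiset.map_cons, Multiset.prod_cons, Multiset.map_cons, Multiset.sum_cons,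
      derivative_mul, eval_add, eval_mul, eval_mul, eval_mul,
      ih fun ω hω => hs ω (Multiset.mem_cons_of_mem hω)]
    have h2 := hs a (Multiset.mem_cons_self a s)
    have h3 : t + a ≠ 0 := by linarith
    simp
    field_simp

/-- The function `M_P(t) = t P'(t) / P(t)`. -/
noncomputable def MM (P : ℝ[X]) (t : ℝ) : ℝ := t * P.derivative.eval t / P.eval t

theorem MM_eq (P : ℝ[X]) (h0 : P ≠ 0) (hnn : ∀ i, 0 ≤ P.coeff i)
    (hr : ∀ z : ℂ, aeval z P = 0 → z.im = 0) :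
    ∃ s : Multiset ℝ, (∀ ω ∈ s, 0 ≤ ω) ∧ ∀ t, 0 < t →
      MM P t = (s.map fun ω => t * (1 / (t + ω))).sum := by
  obtain ⟨s, hs, hP⟩ := exists_factor P h0 hnn hr
  refine ⟨s, hs, fun t ht => ?_⟩
  have hl : P.leadingCoeff ≠ 0 := by simpa using h0
  have h1 := (prod_eval_pos s hs ht).ne'
  rw [MM, hP]
  simp only [derivative_C_mul, eval_mul, eval_C]
  rw [prod_eval_derivative s hs ht, Multiset.sum_map_mul_left]
  field_simp

theorem sum_concave (s : Multiset ℝ) (hs : ∀ ω ∈ s, 0 ≤ ω) {t₁ t₂ t₃ : ℝ} (h1 : 0 < t₁)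
    (h12 : t₁ ≤ t₂) (h23 : t₂ ≤ t₃) :
    ((s.map fun ω => t₃ * (1 / (t₃ + ω))).sum - (s.map fun ω => t₂ * (1 / (t₂ + ω))).sum) *
      (t₂ - t₁) ≤ ((s.map fun ω => t₂ * (1 / (t₂ + ω))).sum -
        (s.map fun ω => t₁ * (1 / (t₁ + ω))).sum) * (t₃ - t₂) := by
  induction s using Multiset.induction_on with
  | empty => simp
  | cons a s ih =>
    simp only [Multiset.map_cons, Multiset.sum_cons]
    have h := ih fun ω hω => hs ω (Multiset.mem_cons_of_mem hω)
    have ha := hs a (Multiset.mem_cons_self a s)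
    have key : (t₃ * (1 / (t₃ + a)) - t₂ * (1 / (t₂ + a))) * (t₂ - t₁) ≤
        (t₂ * (1 / (t₂ + a)) - t₁ * (1 / (t₁ + a))) * (t₃ - t₂) := by
      have p1 : 0 < t₁ + a := by linarith
      have p2 : 0 < t₂ + a := by linarith
      have p3 : 0 < t₃ + a := by linarith
      have e1 : (t₃ * (1 / (t₃ + a)) - t₂ * (1 / (t₂ + a))) * (t₂ - t₁) =
          a * (t₃ - t₂) * (t₂ - t₁) / ((t₂ + a) * (t₃ + a)) := by
        field_simp; ring
      have e2 : (t₂ * (1 / (t₂ + a)) - t₁ * (1 / (t₁ + a))) * (t₃ - t₂) =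
          a * (t₃ - t₂) * (t₂ - t₁) / ((t₂ + a) * (t₁ + a)) := by
        field_simp; ring
      rw [e1, e2]
      have hn : 0 ≤ a * (t₃ - t₂) * (t₂ - t₁) :=
        mul_nonneg (mul_nonneg ha (by linarith)) (by linarith)
      apply div_le_div_of_nonneg_left hn (by positivity)
      exact mul_le_mul_of_nonneg_left (by linarith) p2.le
    nlinarith [h, key]

/-- `t ↦ t P'(t) / P(t)` is concave on `(0, ∞)` (three-point form). -/
theorem MM_concave (P : ℝ[X]) (h0 : P ≠ 0) (hnn : ∀ i, 0 ≤ P.coeff i)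
    (hr : ∀ z : ℂ, aeval z P = 0 → z.im = 0) {t₁ t₂ t₃ : ℝ} (h1 : 0 < t₁)
    (h12 : t₁ ≤ t₂) (h23 : t₂ ≤ t₃) :
    (MM P t₃ - MM P t₂) * (t₂ - t₁) ≤ (MM P t₂ - MM P t₁) * (t₃ - t₂) := by
  obtain ⟨s, hs, hM⟩ := MM_eq P h0 hnn hr
  rw [hM t₁ h1, hM t₂ (by linarith), hM t₃ (by linarith)]
  exact sum_concave s hs h1 h12 h23

theorem MM_poly (n : ℕ) (b : ℕ → ℝ) (t : ℝ) :
    MM (poly n b) t = (∑ j ∈ Finset.range (n + 1), (j : ℝ) * (b j * t ^ j)) /
      ∑ j ∈ Finset.range (n + 1), b j * t ^ j := by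
  rw [MM, eval_poly]
  congr 1
  simp only [poly, derivative_sum, derivative_C_mul_X_pow, eval_finsetSum, eval_mul, eval_C,
    eval_pow, eval_X]
  rw [Finset.mul_sum]
  refine Finset.sum_congr rfl fun j _ => ?_
  cases j with
  | zero => simp
  | succ j => simp only [Nat.add_sub_cancel]; rw [pow_succ]; ring

/-- The constant `θ / (1 - θ)^2 = ∑ i θ^i`. -/
theorem sum_geom_le {θ : ℝ} (h0 : 0 < θ) (h1 : θ < 1) (N : ℕ) :
    ∑ i ∈ Finset.range N, (i : ℝ) * θ ^ i ≤ θ / (1 - θ) ^ 2 := by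
  have hn : ‖θ‖ < 1 := by rw [Real.norm_of_nonneg h0.le]; exact h1
  rw [← tsum_coe_mul_geometric_of_norm_lt_one hn]
  apply Summable.sum_le_tsum
  · intro i _; positivity
  · simpa using summable_pow_mul_geometric_of_norm_lt_one 1 hn

theorem sum_dist_le {θ : ℝ} (h0 : 0 < θ) (h1 : θ < 1) (n m : ℕ) (hm : m ≤ n) :
    ∑ j ∈ Finset.range (n + 1), |(j : ℝ) - m| * θ ^ (Nat.dist j m) ≤
      2 * (θ / (1 - θ) ^ 2) := by
  rw [Finset.range_eq_Ico, ← Finset.sum_Ico_consecutive _ (Nat.zero_le m)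
    (show m ≤ n + 1 by omega), ← Finset.range_eq_Ico, Finset.sum_Ico_eq_sum_range]
  have e1 : ∑ j ∈ Finset.range m, |(j : ℝ) - m| * θ ^ (Nat.dist j m) =
      ∑ j ∈ Finset.range m, ((j + 1 : ℕ) : ℝ) * θ ^ (j + 1) := by
    rw [← Finset.sum_range_reflect (fun j => ((j + 1 : ℕ) : ℝ) * θ ^ (j + 1)) m]
    refine Finset.sum_congr rfl fun j hj => ?_
    have hj' := Finset.mem_range.mp hj
    have h2 : m - 1 - j + 1 = m - j := by omega
    have h3 : Nat.dist j m = m - j := by rw [Nat.dist_eq_sub_of_le hj'.le]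
    simp only [h2, h3]
    congr 1
    rw [abs_sub_comm, abs_of_nonneg (by
      have : (j : ℝ) ≤ m := by exact_mod_cast hj'.le
      linarith), Nat.cast_sub hj'.le]
  have e2 : ∑ i ∈ Finset.range (n + 1 - m), |((m + i : ℕ) : ℝ) - m| * θ ^ (Nat.dist (m + i) m) =
      ∑ i ∈ Finset.range (n + 1 - m), (i : ℝ) * θ ^ i := by
    refine Finset.sum_congr rfl fun i _ => ?_
    have h3 : Nat.dist (m + i) m = i := by
      rw [Nat.dist_eq_sub_of_le_right (by omega)]; omega
    rw [h3]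
    congr 1
    push_cast
    rw [add_sub_cancel_left, abs_of_nonneg (Nat.cast_nonneg i)]
  rw [e1, e2]
  have e3 : ∑ j ∈ Finset.range m, ((j + 1 : ℕ) : ℝ) * θ ^ (j + 1) =
      ∑ j ∈ Finset.range (m + 1), (j : ℝ) * θ ^ j := by
    rw [Finset.sum_range_succ']; simp
  rw [e3]
  have a1 := sum_geom_le h0 h1 (m + 1)
  have a2 := sum_geom_le h0 h1 (n + 1 - m)
  linarith

theorem MM_near (n m : ℕ) (hm : m ≤ n) (b : ℕ → ℝ) (hb : ∀ j, 0 ≤ b j) (hbm : 0 < b m)
    {t θ : ℝ} (ht : 0 < t) (h0 : 0 < θ) (h1 : θ < 1)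
    (h : ∀ j, j ≤ n → b j * t ^ j ≤ b m * t ^ m * θ ^ (Nat.dist j m)) :
    |MM (poly n b) t - m| ≤ 2 * (θ / (1 - θ) ^ 2) := by
  rw [MM_poly]
  set S := ∑ j ∈ Finset.range (n + 1), b j * t ^ j with hS
  have hS1 : b m * t ^ m ≤ S :=
    Finset.single_le_sum (f := fun j => b j * t ^ j)
      (fun j _ => mul_nonneg (hb j) (pow_nonneg ht.le j)) (Finset.mem_range.mpr (by omega))
  have hbt : 0 < b m * t ^ m := by positivity
  have hS0 : 0 < S := lt_of_lt_of_le hbt hS1
  have e1 : (∑ j ∈ Finset.range (n + 1), (j : ℝ) * (b j * t ^ j)) / S - m =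
      (∑ j ∈ Finset.range (n + 1), ((j : ℝ) - m) * (b j * t ^ j)) / S := by
    rw [div_sub' hS0.ne']
    congr 1
    rw [hS, Finset.sum_mul, ← Finset.sum_sub_distrib]
    refine Finset.sum_congr rfl fun j _ => ?_
    ring
  rw [e1, abs_div, abs_of_pos hS0, div_le_iff₀ hS0]
  calc |∑ j ∈ Finset.range (n + 1), ((j : ℝ) - m) * (b j * t ^ j)|
      ≤ ∑ j ∈ Finset.range (n + 1), |((j : ℝ) - m) * (b j * t ^ j)| :=
        Finset.abs_sum_le_sum_abs _ _
    _ ≤ ∑ j ∈ Finset.range (n + 1), (b m * t ^ m) * (|(j : ℝ) - m| * θ ^ (Nat.dist j m)) := by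
        refine Finset.sum_le_sum fun j hj => ?_
        rw [abs_mul, abs_of_nonneg (mul_nonneg (hb j) (pow_nonneg ht.le j))]
        have := mul_le_mul_of_nonneg_left (h j (by have := Finset.mem_range.mp hj; omega))
          (abs_nonneg ((j : ℝ) - m))
        linarith
    _ = (b m * t ^ m) * ∑ j ∈ Finset.range (n + 1), (|(j : ℝ) - m| * θ ^ (Nat.dist j m)) := by
        rw [Finset.mul_sum]
    _ ≤ (b m * t ^ m) * (2 * (θ / (1 - θ) ^ 2)) :=
        mul_le_mul_of_nonneg_left (sum_dist_le h0 h1 n m hm) hbt.le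
    _ ≤ 2 * (θ / (1 - θ) ^ 2) * S := by
        rw [mul_comm]
        apply mul_le_mul_of_nonneg_left hS1
        have : 0 < 1 - θ := by linarith
        positivity

theorem MM_two (n N : ℕ) (hN : N ≤ n) (b : ℕ → ℝ) (hb : ∀ j, 0 ≤ b j) (hbN : 0 < b N)
    (h : ∀ j, j < N → b j ≤ b (j + 1)) : (N : ℝ) - 2 ≤ MM (poly n b) 2 := by
  rw [MM_poly]
  set c : ℕ → ℝ := fun j => b j * 2 ^ j with hc
  have hc0 : ∀ j, 0 ≤ c j := fun j => by simp only [hc]; have := hb j; positivity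
  have hcN : 0 < c N := by simp only [hc]; positivity
  set S := ∑ j ∈ Finset.range (n + 1), b j * 2 ^ j with hS
  have hS1 : c N ≤ S :=
    Finset.single_le_sum (f := c) (fun j _ => hc0 j) (Finset.mem_range.mpr (by omega))
  have hS0 : 0 < S := lt_of_lt_of_le hcN hS1
  rw [le_div_iff₀ hS0]
  have hstep : ∀ j, j < N → c j * 2 ≤ c (j + 1) := by
    intro j hj
    simp only [hc]
    rw [pow_succ]
    have := mul_le_mul_of_nonneg_right (h j hj) (show (0 : ℝ) ≤ 2 ^ j * 2 by positivity)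
    linarith
  have hgeo : ∀ i, i ≤ N → c (N - i) ≤ c N * (1 / 2) ^ i := by
    intro i
    induction i with
    | zero => intro _; simp
    | succ i ih =>
      intro hi
      have h1 := ih (by omega)
      have h2 := hstep (N - (i + 1)) (by omega)
      rw [show N - (i + 1) + 1 = N - i by omega] at h2
      rw [pow_succ]
      linarith
  have e1 : (N : ℝ) * S - ∑ j ∈ Finset.range (n + 1), (j : ℝ) * c j =
      ∑ j ∈ Finset.range (n + 1), ((N : ℝ) - j) * c j := by
    rw [hS, Finset.mul_sum, ← Finset.sum_sub_distrib]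
    refine Finset.sum_congr rfl fun j _ => ?_
    simp only [hc]; ring
  have e2 : ∑ j ∈ Finset.range (n + 1), ((N : ℝ) - j) * c j ≤
      ∑ j ∈ Finset.range (N + 1), ((N : ℝ) - j) * c j := by
    rw [Finset.range_eq_Ico, ← Finset.sum_Ico_consecutive _ (Nat.zero_le (N + 1))
      (show N + 1 ≤ n + 1 by omega), ← Finset.range_eq_Ico]
    have : ∑ i ∈ Finset.Ico (N + 1) (n + 1), ((N : ℝ) - i) * c i ≤ 0 := by
      apply Finset.sum_nonpos
      intro i hi
      have hi' := (Finset.mem_Ico.mp hi).1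
      have : (N : ℝ) ≤ i := by exact_mod_cast (by omega : N ≤ i)
      exact mul_nonpos_of_nonpos_of_nonneg (by linarith) (hc0 i)
    linarith
  have e3 : ∑ j ∈ Finset.range (N + 1), ((N : ℝ) - j) * c j ≤ 2 * c N := by
    rw [← Finset.sum_range_reflect]
    calc ∑ j ∈ Finset.range (N + 1), ((N : ℝ) - ((N + 1 - 1 - j : ℕ) : ℝ)) * c (N + 1 - 1 - j)
        ≤ ∑ j ∈ Finset.range (N + 1), c N * ((j : ℝ) * (1 / 2) ^ j) := by
          refine Finset.sum_le_sum fun j hj => ?_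
          have hj' : j ≤ N := by have := Finset.mem_range.mp hj; omega
          rw [Nat.add_sub_cancel, Nat.cast_sub hj']
          have := mul_le_mul_of_nonneg_left (hgeo j hj') (Nat.cast_nonneg (α := ℝ) j)
          linarith
      _ = c N * ∑ j ∈ Finset.range (N + 1), (j : ℝ) * (1 / 2) ^ j := by rw [Finset.mul_sum]
      _ ≤ c N * 2 := by
          apply mul_le_mul_of_nonneg_left _ hcN.le
          have := sum_geom_le (θ := 1 / 2) (by norm_num) (by norm_num) (N + 1)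
          norm_num at this ⊢
          linarith
      _ = 2 * c N := mul_comm _ _
  linarith

end Pool.Agent.Lib.MP_f91407_an
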