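import Pool.Agent.Lib.MP_f91407_an.Jump

/-!
# A preserver has no jumps: `f(x)^2 ≤ f(l x) f(x / l)`
-/

namespace Pool.Agent.Lib.MP_f91407_an

open Polynomial NNReal

variable {f : ℝ → ℝ}

theorem bseq_succ (n : ℕ) (c μ : ℝ) {j : ℕ} (hj : j ≤ n) :
    bseq n c μ (j + 1) * (j + 1) = bseq n c μ j * μ * ((n : ℝ) - j) := by
  unfold bseq
  have h := Nat.choose_succ_right_eq n j
  have h' : (n.choose (j + 1) : ℝ) * (j + 1) = n.choose j * ((n : ℝ) - j) := by
    rw [← Nat.cast_sub hj]; exact_mod_cast h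
  rw [pow_succ]
  linear_combination (c * μ ^ j * μ) * h'

theorem near_of_slopes (b : ℕ → ℝ) (hb : ∀ j, 0 ≤ b j) (n m : ℕ) {q θ t : ℝ}
    (hq : 0 < q) (h0 : 0 < θ) (ht : 0 < t) (h2 : θ ^ 2 ≤ q * t) (h1 : q * t ≤ θ)
    (hR : ∀ j, m ≤ j → j + 1 ≤ n → b (j + 1) ≤ q * b j)
    (hL : ∀ j, j + 1 ≤ m → q * b j ≤ θ ^ 3 * b (j + 1)) :
    ∀ j, j ≤ n → b j * t ^ j ≤ b m * t ^ m * θ ^ (Nat.dist j m) := by
  intro j hj
  rcases le_total m j with hmj | hmj
  · induction j, hmj using Nat.le_induction with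
    | base => simp
    | succ j hmj ih =>
      have h3 := ih (by omega)
      rw [Nat.dist_eq_sub_of_le_right hmj] at h3
      rw [Nat.dist_eq_sub_of_le_right (by omega), show j + 1 - m = (j - m) + 1 by omega]
      have h4 := hR j hmj hj
      have hbj := hb j
      calc b (j + 1) * t ^ (j + 1) ≤ q * b j * t ^ (j + 1) :=
            mul_le_mul_of_nonneg_right h4 (by positivity)
        _ = (b j * t ^ j) * (q * t) := by rw [pow_succ]; ring
        _ ≤ (b j * t ^ j) * θ := mul_le_mul_of_nonneg_left h1 (by positivity)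
        _ ≤ (b m * t ^ m * θ ^ (j - m)) * θ := mul_le_mul_of_nonneg_right h3 h0.le
        _ = b m * t ^ m * θ ^ (j - m + 1) := by rw [pow_succ θ]; ring
  · have key : ∀ i, i ≤ m → b (m - i) * t ^ (m - i) ≤ b m * t ^ m * θ ^ i := by
      intro i
      induction i with
      | zero => intro _; simp
      | succ i ih =>
        intro hi
        have h3 := ih (by omega)
        have h4 := hL (m - (i + 1)) (by omega)
        rw [show m - (i + 1) + 1 = m - i by omega] at h4
        have h5 : t ^ (m - i) = t ^ (m - (i + 1)) * t := by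
          rw [← pow_succ]; congr 1; omega
        rw [h5] at h3
        have hb1 := hb (m - (i + 1))
        have hb2 := hb (m - i)
        set u := b (m - (i + 1)) with hu
        set v := b (m - i) with hv
        set T := t ^ (m - (i + 1)) with hT
        have hT0 : 0 < T := by positivity
        set W := b m * t ^ m * θ ^ i with hW
        -- `u T ≤ W θ`
        have h6 : θ ^ 2 * (u * T) ≤ θ ^ 2 * (W * θ) := by
          calc θ ^ 2 * (u * T) ≤ (q * t) * (u * T) :=
                mul_le_mul_of_nonneg_right h2 (by positivity)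
            _ = (q * u) * (t * T) := by ring
            _ ≤ (θ ^ 3 * v) * (t * T) := mul_le_mul_of_nonneg_right h4 (by positivity)
            _ = θ ^ 3 * (v * (T * t)) := by ring
            _ ≤ θ ^ 3 * W := mul_le_mul_of_nonneg_left h3 (by positivity)
            _ = θ ^ 2 * (W * θ) := by ring
        have h7 : u * T ≤ W * θ := le_of_mul_le_mul_left h6 (by positivity)
        rw [pow_succ θ]
        calc u * T ≤ W * θ := h7
          _ = b m * t ^ m * (θ ^ i * θ) := by rw [hW]; ring
    rw [Nat.dist_eq_sub_of_le hmj]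
    have := key (m - j) (by omega)
    rwa [show m - (m - j) = j by omega] at this

theorem PresR.noJump (hf : PresR f) {x l θ : ℝ} (hx : 0 < x) (hl : 1 < l) (h0 : 0 < θ)
    (h1 : θ < 1) : θ ^ 3 * f x ^ 2 < f (l * x) * f (x / l) := by
  by_contra hcon
  push Not at hcon
  have hlx : 0 < l * x := by positivity
  have fx := hf.pos hx
  have flx := hf.pos hlx
  set q := f (l * x) / f x with hq
  have hq0 : 0 < q := by positivity
  have hq1 : 1 ≤ q := by
    rw [hq, one_le_div fx]
    exact hf.mono hx (by nlinarith)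
  set K := 2 * (θ / (1 - θ) ^ 2) with hK
  have h1θ : 0 < 1 - θ := by linarith
  have hK0 : 0 < K := by positivity
  obtain ⟨I, hI⟩ := exists_nat_gt (1 + K + 4 * K * q / (θ * (1 - θ)))
  obtain ⟨m, hm⟩ := exists_nat_gt ((l + 1) * (I + 1) / (l - 1))
  have hl1 : 0 < l - 1 := by linarith
  rw [div_lt_iff₀ hl1] at hm
  have hmI : (I : ℝ) + 1 < m := by
    have : (l - 1) * ((I : ℝ) + 1) < (l - 1) * m := by nlinarith [Nat.cast_nonneg (α := ℝ) I]
    exact lt_of_mul_lt_mul_left this hl1.le
  have hmI' : I + 1 < m := by exact_mod_cast hmI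
  have hm0 : (0 : ℝ) < m := by linarith [Nat.cast_nonneg (α := ℝ) I]
  set μ := l * (m + 1) / m with hμ
  have hμ0 : 0 < μ := by positivity
  set n := 2 * m with hn
  have hnR : (n : ℝ) = 2 * m := by rw [hn]; push_cast; ring
  have hCm : 0 < (n.choose m : ℝ) := by exact_mod_cast Nat.choose_pos (by omega)
  set c := x / (n.choose m * μ ^ m) with hc
  have hc0 : 0 < c := by positivity
  set a := bseq n c μ with ha
  have ham : a m = x := by rw [ha]; unfold bseq; rw [hc]; field_simp
  have hrec : ∀ j, j ≤ n → a (j + 1) * (j + 1) = a j * μ * ((n : ℝ) - j) :=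
    fun j hj => bseq_succ n c μ hj
  have hapos : ∀ j, j ≤ n → 0 < a j := by
    intro j hj
    rw [ha]; unfold bseq
    have : 0 < (n.choose j : ℝ) := by exact_mod_cast Nat.choose_pos hj
    positivity
  have ham1 : a (m + 1) = l * x := by
    have h := hrec m (by omega)
    rw [ham, hnR, hμ] at h
    have h' : a (m + 1) * (m + 1) = (l * x) * (m + 1) := by
      rw [h]; field_simp; ring
    exact mul_right_cancel₀ (by positivity) h'
  have ham2 : a (m - 1) ≤ x / l := by
    have h := hrec (m - 1) (by omega)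
    rw [show m - 1 + 1 = m by omega, ham, hnR, hμ, Nat.cast_sub (by omega), Nat.cast_one] at h
    rw [le_div_iff₀ (by linarith)]
    have h' : x * m ^ 2 = (a (m - 1) * l) * (m + 1) ^ 2 := by
      have : x * m = a (m - 1) * (l * (m + 1) / m) * (m + 1) := by
        have e1 : (m : ℝ) - 1 + 1 = m := by ring
        have e2 : 2 * (m : ℝ) - (m - 1) = m + 1 := by ring
        rw [e1, e2] at h
        exact h
      field_simp at this
      nlinarith
    have hp := hapos (m - 1) (by omega)
    have hp2 : 0 < a (m - 1) * l := by positivity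
    by_contra hlt
    push Not at hlt
    nlinarith [mul_pos hm0 hm0, mul_pos hp2 hm0]
  have hinc : ∀ j, j < m + I + 1 → a j ≤ a (j + 1) := by
    intro j hj
    have hjn : j ≤ n := by omega
    have h := hrec j hjn
    have hp := hapos j hjn
    have hjR : (j : ℝ) ≤ m + I := by exact_mod_cast (by omega : j ≤ m + I)
    have hlμ : l ≤ μ := by
      rw [hμ, le_div_iff₀ hm0]; nlinarith
    have h2 : (j : ℝ) + 1 ≤ μ * ((n : ℝ) - j) := by
      rw [hnR]
      have e1 : (m : ℝ) - I ≤ 2 * m - j := by linarith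
      have e2 : 0 < (m : ℝ) - I := by linarith
      have e3 : l * ((m : ℝ) - I) ≤ μ * (2 * m - j) :=
        mul_le_mul hlμ e1 e2.le hμ0.le
      nlinarith [Nat.cast_nonneg (α := ℝ) I]
    have h3 : a j * ((j : ℝ) + 1) ≤ a (j + 1) * ((j : ℝ) + 1) := by
      rw [h, mul_assoc]
      exact mul_le_mul_of_nonneg_left h2 hp.le
    exact le_of_mul_le_mul_right h3 (by positivity)
  -- the image polynomial
  set b : ℕ → ℝ := fun j => f (a j) with hb
  have hb0 : ∀ j, 0 ≤ b j := fun j => hf.nonneg _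
  have hbpos : ∀ j, j ≤ n → 0 < b j := fun j hj => hf.pos (hapos j hj)
  have hRR : RRn n b := hf.pres n a (bseq_nonneg hc0.le hμ0.le) (RRn_bseq n hc0)
  have htn : ∀ i j, i ≤ j → j + 1 ≤ n → b i * b (j + 1) ≤ b (i + 1) * b j :=
    fun i j hij hj => hf.tn2_bseq hc0 hμ0.le hij hj
  have hbm : b m = f x := by simp only [hb]; rw [ham]
  have hbm1 : b (m + 1) = q * b m := by
    simp only [hb]; rw [ham, ham1, hq]; field_simp
  have hbm2 : q * b (m - 1) ≤ θ ^ 3 * b m := by
    have e1 : b (m - 1) ≤ f (x / l) := hf.mono (hapos _ (by omega)) ham2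
    have e2 : f (l * x) * b (m - 1) ≤ θ ^ 3 * f x ^ 2 :=
      (mul_le_mul_of_nonneg_left e1 flx.le).trans hcon
    rw [hbm, hq, div_mul_eq_mul_div, div_le_iff₀ fx]
    nlinarith
  have hR : ∀ j, m ≤ j → j + 1 ≤ n → b (j + 1) ≤ q * b j := by
    intro j hmj hj
    have h := htn m j hmj hj
    rw [hbm1] at h
    have hp := hbpos m (by omega)
    have : b m * b (j + 1) ≤ b m * (q * b j) := by linarith
    exact le_of_mul_le_mul_left this hp
  have hL : ∀ j, j + 1 ≤ m → q * b j ≤ θ ^ 3 * b (j + 1) := by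
    intro j hj
    have h := htn j (m - 1) (by omega) (by omega)
    rw [show m - 1 + 1 = m by omega] at h
    have hp := hbpos m (by omega)
    have hp1 := hbpos (j + 1) (by omega)
    have : b m * (q * b j) ≤ b m * (θ ^ 3 * b (j + 1)) := by
      calc b m * (q * b j) = q * (b j * b m) := by ring
        _ ≤ q * (b (j + 1) * b (m - 1)) := mul_le_mul_of_nonneg_left h hq0.le
        _ = b (j + 1) * (q * b (m - 1)) := by ring
        _ ≤ b (j + 1) * (θ ^ 3 * b m) := mul_le_mul_of_nonneg_left hbm2 hp1.le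
        _ = b m * (θ ^ 3 * b (j + 1)) := by ring
    exact le_of_mul_le_mul_left this hp
  -- the three points
  have hq1' : q * (θ ^ 2 / q) = θ ^ 2 := by field_simp
  have hq2' : q * (θ / q) = θ := by field_simp
  have n1 := MM_near n m (by omega) b hb0 (hbpos m (by omega)) (t := θ ^ 2 / q)
    (by positivity) h0 h1 (near_of_slopes b hb0 n m hq0 h0 (by positivity)
      hq1'.ge (by rw [hq1']; nlinarith) hR hL)
  have n2 := MM_near n m (by omega) b hb0 (hbpos m (by omega)) (t := θ / q)
    (by positivity) h0 h1 (near_of_slopes b hb0 n m hq0 h0 (by positivity)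
      (by rw [hq2']; nlinarith) hq2'.le hR hL)
  have n3 := MM_two n (m + I + 1) (by omega) b hb0 (hbpos _ (by omega)) (by
    intro j hj
    exact hf.mono (hapos j (by omega)) (hinc j hj))
  have hP0 : poly n b ≠ 0 := by
    intro h
    have := congrArg (fun P : ℝ[X] => P.coeff 0) h
    simp [coeff_poly] at this
    exact (hbpos 0 (by omega)).ne' this
  have hPnn : ∀ i, 0 ≤ (poly n b).coeff i := by
    intro i; rw [coeff_poly]; split_ifs
    · exact hb0 i
    · exact le_rfl
  have hPr : ∀ z : ℂ, aeval z (poly n b) = 0 → z.im = 0 := by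
    intro z hz; rw [aeval_poly] at hz; exact hRR z hz
  have ht12 : θ ^ 2 / q ≤ θ / q := div_le_div_of_nonneg_right (by nlinarith) hq0.le
  have ht2 : θ / q ≤ 1 := by rw [div_le_one hq0]; linarith
  have conc := MM_concave (poly n b) hP0 hPnn hPr (t₁ := θ ^ 2 / q) (t₂ := θ / q) (t₃ := 2)
    (by positivity) ht12 (by linarith)
  rw [abs_le] at n1 n2
  rw [← hK] at n1 n2
  push_cast at n3
  set M1 := MM (poly n b) (θ ^ 2 / q)
  set M2 := MM (poly n b) (θ / q)
  set M3 := MM (poly n b) 2
  have e1 : θ / q - θ ^ 2 / q = θ * (1 - θ) / q := by ring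
  rw [e1] at conc
  have e2 : (I : ℝ) - 1 - K ≤ M3 - M2 := by linarith [n2.2]
  have e3 : M2 - M1 ≤ 2 * K := by linarith [n1.1, n2.2]
  have hd : 0 < θ * (1 - θ) / q := by positivity
  have e4 : ((I : ℝ) - 1 - K) * (θ * (1 - θ) / q) ≤ 2 * K * 2 := by
    calc ((I : ℝ) - 1 - K) * (θ * (1 - θ) / q) ≤ (M3 - M2) * (θ * (1 - θ) / q) :=
          mul_le_mul_of_nonneg_right e2 hd.le
      _ ≤ (M2 - M1) * (2 - θ / q) := conc
      _ ≤ 2 * K * (2 - θ / q) := mul_le_mul_of_nonneg_right e3 (by linarith)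
      _ ≤ 2 * K * 2 := mul_le_mul_of_nonneg_left (by
          have : 0 < θ / q := by positivity
          linarith) (by positivity)
  have e5 : 4 * K < ((I : ℝ) - 1 - K) * (θ * (1 - θ) / q) := by
    have h5 : 4 * K * q / (θ * (1 - θ)) < (I : ℝ) - 1 - K := by linarith
    rw [div_lt_iff₀ (by positivity)] at h5
    rw [← mul_div_assoc, lt_div_iff₀ hq0]
    exact h5
  linarith

theorem PresR.convex_ineq (hf : PresR f) {x l : ℝ} (hx : 0 < x) (hl : 1 < l) :
    f x ^ 2 ≤ f (l * x) * f (x / l) := by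
  have hlim : Filter.Tendsto (fun θ : ℝ => θ ^ 3 * f x ^ 2) (nhdsWithin 1 (Set.Iio 1))
      (nhds (1 ^ 3 * f x ^ 2)) := by
    apply Filter.Tendsto.mono_left _ nhdsWithin_le_nhds
    exact (Continuous.tendsto (by fun_prop) 1)
  rw [one_pow, one_mul] at hlim
  refine le_of_tendsto hlim ?_
  have : Set.Ioo (0 : ℝ) 1 ∈ nhdsWithin (1 : ℝ) (Set.Iio 1) :=
    Ioo_mem_nhdsLT (by norm_num)
  filter_upwards [this] with θ hθ
  exact (hf.noJump hx hl hθ.1 hθ.2).le

end Pool.Agent.Lib.MP_f91407_an
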