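import Pool.Agent.Lib.MP_f91407_an.Mg.G030

/-!
# The entire function `∑ (-x)^j / (j!)^p`
-/

namespace Pool.Agent.Lib.MP_f91407_an

open Filter Topology

/-- The coefficients `1 / (j!)^p`. -/
noncomputable def gg (p : ℝ) (j : ℕ) : ℝ := (1 / (j.factorial : ℝ)) ^ p

/-- The function `∑ (-x)^j / (j!)^p`. -/
noncomputable def rr (p x : ℝ) : ℝ := ∑' j : ℕ, gg p j * (-x) ^ j

theorem gg_nonneg (p : ℝ) (j : ℕ) : 0 ≤ gg p j := by unfold gg; positivity

theorem gg_zero (p : ℝ) : gg p 0 = 1 := by simp [gg]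

theorem gg_le {p : ℝ} (hp : 1 ≤ p) (j : ℕ) : gg p j ≤ 1 / j.factorial := by
  unfold gg
  have hf : (1 : ℝ) ≤ j.factorial := by exact_mod_cast Nat.factorial_pos j
  have h1 : 1 / (j.factorial : ℝ) ≤ 1 := by rw [div_le_one (by linarith)]; exact hf
  calc (1 / (j.factorial : ℝ)) ^ p ≤ (1 / (j.factorial : ℝ)) ^ (1 : ℝ) :=
        Real.rpow_le_rpow_of_exponent_ge (by positivity) h1 hp
    _ = 1 / j.factorial := Real.rpow_one _

theorem summable_exp (x : ℝ) : Summable fun j : ℕ => x ^ j / j.factorial :=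
  Real.summable_pow_div_factorial x

theorem rr_bound {p : ℝ} (hp : 1 ≤ p) (x : ℝ) (j : ℕ) :
    ‖gg p j * (-x) ^ j‖ ≤ |x| ^ j / j.factorial := by
  rw [norm_mul, norm_pow, norm_neg, Real.norm_of_nonneg (gg_nonneg p j), Real.norm_eq_abs]
  calc gg p j * |x| ^ j ≤ 1 / j.factorial * |x| ^ j :=
        mul_le_mul_of_nonneg_right (gg_le hp j) (by positivity)
    _ = _ := by ring

theorem rr_summable {p : ℝ} (hp : 1 ≤ p) (x : ℝ) : Summable fun j : ℕ => gg p j * (-x) ^ j :=
  Summable.of_norm_bounded (summable_exp |x|) (rr_bound hp x)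

theorem rr_continuous {p : ℝ} (hp : 1 ≤ p) : Continuous (rr p) := by
  rw [continuous_iff_continuousAt]
  intro x
  set M := |x| + 1 with hM
  have h1 : ContinuousOn (rr p) (Metric.ball 0 M) := by
    apply continuousOn_tsum (u := fun j => M ^ j / (j.factorial : ℝ)) _ (summable_exp M)
    · intro j y hy
      rw [mem_ball_zero_iff, Real.norm_eq_abs] at hy
      refine (rr_bound hp y j).trans ?_
      apply div_le_div_of_nonneg_right _ (by positivity)
      exact pow_le_pow_left₀ (abs_nonneg y) hy.le j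
    · intro j
      fun_prop
  exact h1.continuousAt (Metric.isOpen_ball.mem_nhds (by
    rw [mem_ball_zero_iff, Real.norm_eq_abs, hM]; linarith))

theorem rr_abs_le {p : ℝ} (hp : 1 ≤ p) (x : ℝ) : |rr p x| ≤ Real.exp |x| := by
  rw [← Real.norm_eq_abs]
  calc ‖rr p x‖ ≤ ∑' j : ℕ, |x| ^ j / (j.factorial : ℝ) :=
        tsum_of_norm_bounded (summable_exp |x|).hasSum (rr_bound hp x)
    _ = Real.exp |x| := by rw [Real.exp_eq_exp_ℝ, NormedSpace.exp_eq_tsum_div]

theorem rr_near_one {p : ℝ} (hp : 1 ≤ p) {x : ℝ} (h0 : 0 ≤ x) (h1 : x ≤ 1) :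
    |rr p x - 1| ≤ Real.exp 1 * x := by
  have hs := rr_summable hp x
  have e1 : rr p x - 1 = ∑' j : ℕ, gg p (j + 1) * (-x) ^ (j + 1) := by
    unfold rr
    rw [hs.tsum_eq_zero_add]
    simp [gg_zero]
  rw [e1, ← Real.norm_eq_abs]
  have hb : ∀ j : ℕ, ‖gg p (j + 1) * (-x) ^ (j + 1)‖ ≤ x * (1 ^ j / (j.factorial : ℝ)) := by
    intro j
    refine (rr_bound hp x (j + 1)).trans ?_
    rw [abs_of_nonneg h0, Nat.factorial_succ, one_pow, pow_succ]
    have hf : (0 : ℝ) < j.factorial := by exact_mod_cast Nat.factorial_pos j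
    have h2 : x ^ j ≤ 1 := pow_le_one₀ h0 h1
    have h3 : x ^ j * x ≤ x := by nlinarith
    push_cast
    rw [mul_one_div, div_le_div_iff₀ (by positivity) hf]
    have h4 : (1 : ℝ) ≤ j + 1 := by linarith [Nat.cast_nonneg (α := ℝ) j]
    calc x ^ j * x * j.factorial ≤ x * j.factorial := mul_le_mul_of_nonneg_right h3 hf.le
      _ ≤ x * ((j + 1) * j.factorial) := by
          apply mul_le_mul_of_nonneg_left _ h0
          nlinarith
  calc ‖∑' j : ℕ, gg p (j + 1) * (-x) ^ (j + 1)‖ ≤ ∑' j : ℕ, x * (1 ^ j / (j.factorial : ℝ)) :=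
        tsum_of_norm_bounded ((summable_exp 1).mul_left x).hasSum hb
    _ = x * Real.exp 1 := by
        rw [tsum_mul_left, Real.exp_eq_exp_ℝ, NormedSpace.exp_eq_tsum_div]
    _ = Real.exp 1 * x := mul_comm _ _

theorem An_tendsto (j : ℕ) : Tendsto (fun n : ℕ => An n j) atTop (𝓝 (1 / (j.factorial : ℝ))) := by
  have h1 : Tendsto (fun n : ℕ => (1 - (j : ℝ) ^ 2 / n) / j.factorial) atTop
      (𝓝 ((1 - 0) / (j.factorial : ℝ))) := by
    apply Tendsto.div_const
    apply Tendsto.const_sub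
    exact tendsto_const_nhds.div_atTop tendsto_natCast_atTop_atTop
  rw [sub_zero] at h1
  refine tendsto_of_tendsto_of_tendsto_of_le_of_le' h1 tendsto_const_nhds ?_ ?_
  · filter_upwards [eventually_gt_atTop 0] with n hn using An_ge n j hn
  · filter_upwards [eventually_gt_atTop 0] with n hn using An_le n j hn

theorem rr_tendsto {p : ℝ} (hp : 1 ≤ p) (x : ℝ) :
    Tendsto (fun n : ℕ => ∑ j ∈ Finset.range (n + 1), An n j ^ p * (-x) ^ j) atTop
      (𝓝 (rr p x)) := by
  have h1 : Tendsto (fun n : ℕ => ∑' j : ℕ, An n j ^ p * (-x) ^ j) atTop (𝓝 (rr p x)) := by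
    apply tendsto_tsum_of_dominated_convergence (summable_exp |x|)
    · intro j
      apply Tendsto.mul_const
      exact ((Real.continuousAt_rpow_const _ p (Or.inr (by linarith))).tendsto).comp (An_tendsto j)
    · filter_upwards [eventually_gt_atTop 0] with n hn j
      have h2 : An n j ^ p ≤ gg p j :=
        Real.rpow_le_rpow (An_nonneg n j) (An_le n j hn) (by linarith)
      refine le_trans ?_ (rr_bound hp x j)
      rw [norm_mul, norm_mul]
      apply mul_le_mul_of_nonneg_right _ (norm_nonneg _)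
      rw [Real.norm_of_nonneg (Real.rpow_nonneg (An_nonneg n j) _),
        Real.norm_of_nonneg (gg_nonneg p j)]
      exact h2
  refine h1.congr fun n => ?_
  apply tsum_eq_sum
  intro j hj
  rw [Finset.mem_range, not_lt] at hj
  rw [An_eq_zero (by omega), Real.zero_rpow (by linarith), zero_mul]

theorem rr_decay {p : ℝ} (hp1 : 1 < p) (hp2 : p < 2)
    (hRR : ∀ n : ℕ, 0 < n → RRn n fun j => An n j ^ p) :
    ∃ C : ℝ, ∀ x, 1 ≤ x → |rr p x| * x ^ 2 ≤ C := by
  obtain ⟨c, X, hc, hX1, h⟩ := decay hp1 hp2 hRR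
  have hr : ∀ x, X ≤ x → |rr p x| ≤ Real.exp (-c * x ^ (1 / p)) := by
    intro x hx
    obtain ⟨n0, hn0⟩ := h x hx
    refine le_of_tendsto (rr_tendsto hp1.le x).abs ?_
    filter_upwards [eventually_ge_atTop n0] with n hn using hn0 n hn
  -- bounded for large x
  have hp0 : 0 < p := by linarith
  have hlim : Tendsto (fun x : ℝ => Real.exp (-c * x ^ (1 / p)) * x ^ 2) atTop (𝓝 0) := by
    have h1 := tendsto_rpow_mul_exp_neg_mul_atTop_nhds_zero (2 * p) c hc
    have h2 : Tendsto (fun x : ℝ => x ^ (1 / p)) atTop atTop :=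
      tendsto_rpow_atTop (by positivity)
    have h3 := h1.comp h2
    refine h3.congr' ?_
    filter_upwards [eventually_gt_atTop 0] with x hx
    simp only [Function.comp_apply]
    rw [← Real.rpow_mul hx.le, show 1 / p * (2 * p) = 2 by field_simp, mul_comm]
    norm_num
  obtain ⟨Y, hY⟩ := eventually_atTop.mp (hlim.eventually (gt_mem_nhds one_pos))
  set Z := max (max X Y) 1 with hZ
  refine ⟨1 + Real.exp Z * Z ^ 2, fun x hx => ?_⟩
  rcases le_total x Z with hxZ | hxZ
  · have h1 : |rr p x| ≤ Real.exp Z := by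
      refine (rr_abs_le hp1.le x).trans (Real.exp_le_exp.mpr ?_)
      rw [abs_of_nonneg (by linarith)]; exact hxZ
    have h2 : x ^ 2 ≤ Z ^ 2 := pow_le_pow_left₀ (by linarith) hxZ 2
    have h3 := mul_le_mul h1 h2 (by positivity) (Real.exp_pos Z).le
    linarith
  · have hxX : X ≤ x := ((le_max_left X Y).trans (le_max_left _ 1)).trans hxZ
    have hxY : Y ≤ x := ((le_max_right X Y).trans (le_max_left _ 1)).trans hxZ
    have h1 := mul_le_mul_of_nonneg_right (hr x hxX) (sq_nonneg x)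
    have h2 := hY x hxY
    have h3 : 0 ≤ Real.exp Z * Z ^ 2 := by positivity
    linarith

end Pool.Agent.Lib.MP_f91407_an
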